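import Mathlib
import Pool.Agent.helper12.TY.Spec

/-!
# Row ty:YHK (MP_baa4d7_al): the correction terms of the wreath product
-/

set_option autoImplicit false

namespace Pool.Agent.TY

open Pool.Agent.helper58.DC Pool.Agent.DI Pool.Agent.GR Pool.Agent.OB Pool.Agent.TZ

private theorem YHK_dg_mul (p : ℕ) {G : Type} [Group G] (a b : G) :
    dg p (a * b) = dg p a * dg p b := by
  apply KE.ext
  · show (1 : Tp p) = 1 * 1
    rw [mul_one]
  · rfl

private theorem YHK_conj_iff (p : ℕ) {G : Type} [Group G] (w : WG p G) (g a : G) :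
    IsConj (w * dg p g * w⁻¹) (w * dg p a * w⁻¹) ↔ IsConj g a := by
  constructor
  · intro h
    rw [isConj_iff] at h
    obtain ⟨c, hc⟩ := h
    obtain ⟨u, hu⟩ : ∃ u : WG p G, u = w⁻¹ * c * w := ⟨_, rfl⟩
    have h1 : u * dg p g = dg p a * u := by
      have h2 : w⁻¹ * (c * (w * dg p g * w⁻¹) * c⁻¹) * c * w = w⁻¹ * (w * dg p a * w⁻¹) * c * w := by
        rw [hc]
      rw [hu]
      calc w⁻¹ * c * w * dg p g = w⁻¹ * (c * (w * dg p g * w⁻¹) * c⁻¹) * c * w := by group
        _ = w⁻¹ * (w * dg p a * w⁻¹) * c * w := h2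
        _ = dg p a * (w⁻¹ * c * w) := by group
    have h3 : (u * dg p g).f 1 = (dg p a * u).f 1 := by rw [h1]
    rw [KE.mul_f, KE.mul_f] at h3
    have h5 : (dg p g).l • (1 : Tp p) = 1 := one_smul _ _
    rw [h5] at h3
    have h4 : u.f 1 * g = a * u.f 1 := h3
    rw [isConj_iff]
    refine ⟨u.f 1, ?_⟩
    rw [h4]
    group
  · intro h
    rw [isConj_iff] at h
    obtain ⟨c, hc⟩ := h
    rw [isConj_iff]
    refine ⟨w * dg p c * w⁻¹, ?_⟩
    rw [← hc, YHK_dg_mul, YHK_dg_mul]
    have h1 : dg p c⁻¹ = (dg p c)⁻¹ := by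
      rw [eq_inv_iff_mul_eq_one, ← YHK_dg_mul, inv_mul_cancel]
      rfl
    rw [h1]
    group

theorem YHK (hYKQ : YKQ_stmt) (hYTA : YTA_stmt) (hYWO : YWO_stmt) (hIRT : IRT_stmt) (hOI : OI_stmt) :
    YHK_stmt := by
  intro p c m _ M hM G _ _ χ g D hH Q hQ1 hQ2 b hb hCov
  obtain ⟨w, hw, hx⟩ := hYKQ p G Q hQ1 hQ2
  obtain ⟨K, hK⟩ : ∃ K : Subgroup (WG p G), K = (WX p G).inc.range ⊓ cz Q := ⟨_, rfl⟩
  rw [← hK] at hx
  subst hK
  -- the isomorphism
  let e0 : G →* ↥((WX p G).inc.range ⊓ cz Q) :=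
    { toFun := fun a => ⟨w * dg p a * w⁻¹, (hx _).2 ⟨a, rfl⟩⟩
      map_one' := by
        apply Subtype.ext
        show w * dg p 1 * w⁻¹ = 1
        have : dg p (1 : G) = 1 := rfl
        rw [this]
        group
      map_mul' := fun a b => by
        apply Subtype.ext
        show w * dg p (a * b) * w⁻¹ = (w * dg p a * w⁻¹) * (w * dg p b * w⁻¹)
        rw [YHK_dg_mul]
        group }
  have hinj : Function.Injective e0 := by
    intro a b hab
    have h1 : w * dg p a * w⁻¹ = w * dg p b * w⁻¹ := congrArg Subtype.val hab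
    have h2 : dg p a = dg p b := by
      have := mul_right_cancel h1
      exact mul_left_cancel this
    exact congrArg (fun x : WG p G => x.f 1) h2
  have hsur : Function.Surjective e0 := by
    intro y
    obtain ⟨a, ha⟩ := (hx y.1).1 y.2
    exact ⟨a, Subtype.ext ha.symm⟩
  let e : G ≃* ↥((WX p G).inc.range ⊓ cz Q) := MulEquiv.ofBijective e0 ⟨hinj, hsur⟩
  have he : ∀ a : G, ((e a : ↥((WX p G).inc.range ⊓ cz Q)) : WG p G) = w * dg p a * w⁻¹ := fun a => rfl
  have : Finite (↥((WX p G).inc.range ⊓ cz Q)) := Finite.of_equiv G e.toEquiv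
  refine ⟨fun a => b (e a), ⟨hIRT G _ e b hb, hH.le, hH.pgrp, hH.card, ?_, hH.el, hH.mem, hH.ne⟩,
    hYTA G _ e p M b⟩
  -- the central characters
  have key : omega (fun a => b (e a)) g =
      omega (ext0 ((WX p G).inc.range ⊓ cz Q).subtype b) (w * dg p g * w⁻¹) := by
    unfold omega
    have h1 : ext0 ((WX p G).inc.range ⊓ cz Q).subtype b 1 = b (e 1) := by
      have h2 : ext0 ((WX p G).inc.range ⊓ cz Q).subtype b
          (((WX p G).inc.range ⊓ cz Q).subtype (e 1)) = b (e 1) :=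
        Function.Injective.extend_apply (Subtype.val_injective) b 0 (e 1)
      rw [← h2, map_one, map_one]
    rw [h1]
    congr 1
    have h3 : ∀ a : G, ext0 ((WX p G).inc.range ⊓ cz Q).subtype b (w * dg p a * w⁻¹) = b (e a) := by
      intro a
      exact Function.Injective.extend_apply (Subtype.val_injective) b 0 (e a)
    have hj : Function.Injective (fun a : G => w * dg p a * w⁻¹) := by
      intro a a' h
      exact hinj (Subtype.ext h)
    have h4 : ∑ᶠ x ∈ conjugatesOf (w * dg p g * w⁻¹), ext0 ((WX p G).inc.range ⊓ cz Q).subtype b x =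
        ∑ᶠ x ∈ (fun a : G => w * dg p a * w⁻¹) '' (conjugatesOf g),
          ext0 ((WX p G).inc.range ⊓ cz Q).subtype b x := by
      apply finsum_mem_inter_support_eq'
      intro x hxs
      have h5 : x ∈ (WX p G).inc.range ⊓ cz Q := by
        by_contra hcon
        apply hxs
        apply Function.extend_apply'
        rintro ⟨y, rfl⟩
        exact hcon y.2
      obtain ⟨a, rfl⟩ := (hx x).1 h5
      rw [hj.mem_set_image]
      exact YHK_conj_iff p w g a
    rw [h4, finsum_mem_image hj.injOn]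
    exact (finsum_mem_congr rfl fun a _ => h3 a).symm
  show ¬ InM M (omega (fun a => b (e a)) g)
  rw [key]
  intro hcon
  have hmem : w * dg p g * w⁻¹ ∈ (WX p G).inc.range := ((hx _).2 ⟨g, rfl⟩).1
  have hc := hCov _ hmem
  rw [hYWO p G χ g w] at hc
  have h6 := InM.of_mcong hM hc
  have h7 : InM M (omega χ g ^ p) := by
    have := hcon.sub hM h6
    simpa using this
  apply hH.om
  refine InM.of_pow hM ?_ h7
  apply IntAt.of_isIntegral hM
  refine hOI G ⊤ χ ⟨fun x hx => absurd (Subgroup.mem_top x) hx, ?_⟩ g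
  exact hIRT _ _ Subgroup.topEquiv χ hH.irr

end Pool.Agent.TY
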